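import Pool.Agent.H60.FlexAsym

set_option autoImplicit false

namespace Pool.Agent.Results.MP_f141fb_co.SuperPolylog

open Pool.H60.Flex

/-- For all sufficiently large `n`, the extremal function `f n` is at least
`n * exp (√(log n / log log n) / 4)`. -/
theorem result :
    ∀ᶠ n : ℕ in Filter.atTop,
      (n : ℝ) * Real.exp (1 / 4 * Real.sqrt (Real.log n / Real.log (Real.log n))) ≤ f n :=
  f_asymp

end Pool.Agent.Results.MP_f141fb_co.SuperPolylog
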